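import Pool.Agent.R263.HyperFam

/-!
# Polynomial hypergroups with `0` in the dual space and `h(2)` close to `1`

For every `δ > 0` there is a symmetric polynomial hypergroup on `ℕ₀` whose dual space contains `0`
and with `h(2) < 1 + δ`.
-/

set_option autoImplicit false

namespace Pool.Agent.Results.MP_5cc272_an.DualZeroHaar

open Polynomial Finset

/-- `a_0 = 1` and `a_n = 1 - c_n` for `n ≥ 1`. -/
def a (c : ℕ → ℝ) (n : ℕ) : ℝ := if n = 0 then 1 else 1 - c n

/-- The polynomials: `P_0 = 1`, `P_1 = X` and `a_{n+1} P_{n+2} = X P_{n+1} - c_{n+1} P_n`. -/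
noncomputable def P (c : ℕ → ℝ) : ℕ → ℝ[X]
  | 0 => 1
  | 1 => X
  | (n + 2) => C (a c (n + 1))⁻¹ * (X * P c (n + 1) - C (c (n + 1)) * P c n)

/-- `c_n ∈ (0,1)` for `n ≥ 1` and the polynomials `P_n` induce a polynomial hypergroup on `ℕ₀`:
every product `P_m P_n` is a combination of `P_{|m-n|}, …, P_{m+n}` with nonnegative coefficients
(the coefficients are unique, since `P_k` has degree `k`). -/
structure IsPolynomialHypergroup (c : ℕ → ℝ) : Prop where
  c_pos : ∀ n, 1 ≤ n → 0 < c n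
  c_lt_one : ∀ n, 1 ≤ n → c n < 1
  linearization : ∀ m n : ℕ, ∃ g : ℕ → ℝ, (∀ k, 0 ≤ g k) ∧
    P c m * P c n = ∑ k ∈ Icc (max m n - min m n) (m + n), C (g k) * P c k

/-- The Haar weights `h(n) = ∏_{k=1}^n a_{k-1} / c_k`. -/
noncomputable def haar (c : ℕ → ℝ) (n : ℕ) : ℝ := ∏ k ∈ Icc 1 n, a c (k - 1) / c k

/-- The dual space: all real `x` with `|P_n(x)| ≤ 1` for every `n`. -/
def dual (c : ℕ → ℝ) : Set ℝ := {x | ∀ n, |(P c n).eval x| ≤ 1}

lemma P_eq (e : ℝ) (n : ℕ) : P (Pool.Agent.R263.Hyp.cc e) n =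
    Pool.Agent.R263.Hyp.ops (Pool.Agent.R263.Hyp.aa e) (fun _ => 0)
      (Pool.Agent.R263.Hyp.cc e) n := by
  induction n using Nat.strong_induction_on with
  | _ n ih =>
    match n with
    | 0 => rfl
    | 1 => simp [P, Pool.Agent.R263.Hyp.ops, Pool.Agent.R263.Hyp.aa_zero]
    | (n + 2) =>
      rw [P, Pool.Agent.R263.Hyp.ops, ih (n + 1) (by omega), ih n (by omega)]
      simp [a, Pool.Agent.R263.Hyp.aa]

/-- For every `δ > 0` there is a symmetric polynomial hypergroup on `ℕ₀` with `0` in its dual space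
and `h(2) < 1 + δ`. -/
theorem result : ∀ δ : ℝ, 0 < δ → ∃ c : ℕ → ℝ,
    IsPolynomialHypergroup c ∧ 0 ∈ dual c ∧ haar c 2 < 1 + δ := by
  intro δ hδ
  obtain ⟨e, h0, h1, hlt⟩ := Pool.Agent.R263.Hyp.h2_lt hδ
  refine ⟨Pool.Agent.R263.Hyp.cc e, ?_, ?_, ?_⟩
  · refine ⟨Pool.Agent.R263.Hyp.cc_pos h0 h1,
      fun n _ => Pool.Agent.R263.Hyp.cc_lt_one h0 h1 n, ?_⟩
    intro m n
    obtain ⟨g, hg, hs⟩ := Pool.Agent.R263.Hyp.linearization h0 h1 m n
    refine ⟨g, hg, ?_⟩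
    simp only [P_eq]
    exact hs
  · intro n
    rw [P_eq]
    exact Pool.Agent.R263.Hyp.abs_eval_zero h0 h1 n
  · have hc1 := Pool.Agent.R263.Hyp.cc_one e
    have hc2 := Pool.Agent.R263.Hyp.cc_two e
    have hval : haar (Pool.Agent.R263.Hyp.cc e) 2 =
        (1 + e) / ((1 - e) * (1 - 2 * e)) := by
      unfold haar
      rw [show Icc 1 2 = ({1, 2} : Finset ℕ) by decide]
      rw [prod_pair (by norm_num), hc1, hc2]
      simp only [a, show (1 - 1 : ℕ) = 0 from rfl, show (2 - 1 : ℕ) = 1 from rfl, if_true,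
        one_ne_zero, if_false, hc1]
      have : (1 - e) ≠ 0 := by linarith
      have : (1 - 2 * e) ≠ 0 := by linarith
      field_simp
      ring
    rw [hval]
    exact hlt

end Pool.Agent.Results.MP_5cc272_an.DualZeroHaar
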